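import Pool.Agent.N830.QCrouzeixMat

set_option autoImplicit false

open Polynomial

namespace Pool.Agent.Results.MP_16d611_an.QCrouzeixBound

open Pool.Agent.N830.QCrouzeix

open scoped Matrix.Norms.L2Operator in
/-- For every complex `n × n` matrix `A`, every `q` with `0 < |q| ≤ 1` and every polynomial `p`,
`‖p(A)‖ ≤ c(q) sup_{Ω_q} |p|` with `c(q) = max(1, 2|q| / (1 + √(1 - |q|²)))`. The only case left out,
`n = 1` and `|q| < 1`, is the one where `W_q(A)` is empty. -/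
theorem result : ∀ (n : ℕ) (A : Matrix (Fin n) (Fin n) ℂ) (q : ℂ), q ≠ 0 → ‖q‖ ≤ 1 →
    (2 ≤ n ∨ ‖q‖ = 1) → ∀ p : ℂ[X], ‖aeval A p‖ ≤ cq q * ⨆ z : Omega A q, ‖p.eval (z : ℂ)‖ :=
  fun _ A q hq0 hq1 hn p => mat_bound A q hq0 hq1 hn p

end Pool.Agent.Results.MP_16d611_an.QCrouzeixBound
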